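import Mathlib
import Pool.Agent.LGO.Isog
import Pool.Agent.LGO.H.Model
import Pool.Agent.LGO.H.MDeg

/-!
# LGO/CM: the endomorphism estimate

`x = j(τ)`, `τ` reduced and quadratic, `a τ² + b τ + c = 0` primitive.  If `x` has degree and height at
most `M` then `|a|, |b|, |c| ≤ M ^ C`.

Proof: model with the lattice `Λ = ℤ w + ℤ w τ`, invariants in `K`.  `engine1` for the field
`K' = K(τ)`, the periods `w` and `w τ` of the same lattice `Λ` (`τ₁ = τ`, `τ₂ = -1/τ`) and `l = τ`: for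
some `n ≤ M' ^ C`, `n τ Λ ⊆ Λ`, `M' = C M ^ 6 (1 + log a)`.  So `n τ² = m + m' τ`, and `a ∣ n`.
Hence `a ≤ M ^ C` (`isog_solve`), `|b| ≤ a` and `c = a ‖τ‖²`, `‖τ‖ ≤ C M ^ 2`.
-/

namespace Pool.Agent.LGO

open Pool.Agent.EllSch UpperHalfPlane Pool.Agent.Hhelper14.ZP

/-- `(a, b, c)` is the primitive integral quadratic equation of `τ` -/
structure QEq (a b c : ℤ) (τ : ℂ) : Prop where
  pos : 0 < a
  prim : ∀ d : ℕ, (d : ℤ) ∣ a → (d : ℤ) ∣ b → (d : ℤ) ∣ c → d = 1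
  eq : (a : ℂ) * τ ^ 2 + b * τ + c = 0

private theorem End_parts {a b c : ℤ} {x : ℂ} (hx : x.im ≠ 0)
    (h : (a : ℂ) * x ^ 2 + b * x + c = 0) :
    (b : ℝ) = -2 * a * x.re ∧ (c : ℝ) = a * ‖x‖ ^ 2 := by
  have h1 := congrArg Complex.im h
  have h2 := congrArg Complex.re h
  simp [pow_two] at h1 h2
  have h3 : (b : ℝ) = -2 * a * x.re := by
    apply mul_right_cancel₀ hx
    linear_combination h1
  refine ⟨h3, ?_⟩
  rw [h3] at h2
  rw [← Complex.normSq_eq_norm_sq, Complex.normSq_apply]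
  linear_combination h2

private theorem End_root {a b c : ℤ} {x τ : ℂ} (ha : 0 < a) (hτ : τ.im ≠ 0)
    (h : (a : ℂ) * τ ^ 2 + b * τ + c = 0) (hx : (a : ℂ) * x ^ 2 + b * x + c = 0) :
    ‖x‖ = ‖τ‖ := by
  obtain ⟨h1, h2⟩ := End_parts hτ h
  have ha' : (0 : ℝ) < a := by exact_mod_cast ha
  have him : x.im ≠ 0 := by
    intro h0
    have h3 := congrArg Complex.re hx
    simp [pow_two, h0] at h3
    have h4 : ‖τ‖ ^ 2 = τ.re ^ 2 + τ.im ^ 2 := by
      rw [← Complex.normSq_eq_norm_sq, Complex.normSq_apply]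
      ring
    rw [h1, h2, h4] at h3
    have h5 : (a : ℝ) * ((x.re - τ.re) ^ 2 + τ.im ^ 2) = 0 := by linear_combination h3
    have h6 : 0 < τ.im ^ 2 := by positivity
    have h7 : 0 < (x.re - τ.re) ^ 2 + τ.im ^ 2 := by positivity
    have h8 := mul_pos ha' h7
    linarith
  obtain ⟨_, h3⟩ := End_parts him hx
  have h4 : (a : ℝ) * ‖x‖ ^ 2 = a * ‖τ‖ ^ 2 := by rw [← h3, ← h2]
  have h5 := mul_left_cancel₀ ha'.ne' h4
  exact (pow_left_inj₀ (norm_nonneg _) (norm_nonneg _) two_ne_zero).1 h5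

/-- the quadratic number `τ` in a quadratic extension -/
private theorem End_field (K : IntermediateField ℚ ℂ) [FiniteDimensional ℚ K] {a b c : ℤ} {τ : ℂ}
    (ha : 0 < a) (hτ : τ.im ≠ 0) (h : (a : ℂ) * τ ^ 2 + b * τ + c = 0) {B : ℝ}
    (hB : (a : ℝ) ≤ Real.exp B) (hB' : ‖τ‖ ≤ Real.exp B) :
    ∃ K' : IntermediateField ℚ ℂ, K ≤ K' ∧ FiniteDimensional ℚ K' ∧
      Module.finrank ℚ K' ≤ 2 * Module.finrank ℚ K ∧ Bd K' B τ := by
  have ha0 : (a : ℂ) ≠ 0 := by exact_mod_cast ha.ne'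
  set γ : ℂ := 2 * a * τ + b with hγ
  have hγ2 : γ ^ 2 = ((b ^ 2 - 4 * a * c : ℤ) : ℂ) := by
    rw [hγ]; push_cast
    linear_combination (4 * a : ℂ) * h
  obtain ⟨D, hD⟩ : ∃ D : ℤ, D = b ^ 2 - 4 * a * c := ⟨_, rfl⟩
  rw [← hD] at hγ2
  have hbd : Bd K (Real.log (1 + |(D : ℝ)|)) (γ ^ 2) := by
    have h0 : (0 : ℝ) ≤ Real.log (1 + |(D : ℝ)|) := Real.log_nonneg (by
      have := abs_nonneg (D : ℝ); linarith)
    rw [hγ2]
    refine ⟨intCast_mem K D, ⟨1, one_pos, ?_, ?_⟩, fun σ => ?_⟩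
    · have := Real.one_le_exp h0
      simpa using this
    · rw [Nat.cast_one, one_mul]
      exact isIntegral_algebraMap (R := ℤ) (x := D)
    · have h1 : (⟨(D : ℂ), intCast_mem K D⟩ : K) = (D : K) := rfl
      rw [h1, map_intCast, Complex.norm_intCast, Real.exp_log (by
        have := abs_nonneg (D : ℝ); linarith)]
      linarith
  obtain ⟨K', hKK', hfd, hfr, hb⟩ := exists_quad K (Real.log_nonneg (by
    have := abs_nonneg (D : ℝ); linarith)) hbd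
  refine ⟨K', hKK', hfd, hfr, ?_⟩
  have hmem : τ ∈ K' := by
    have h1 : τ = (γ - b) / (2 * a) := by
      rw [hγ]; field_simp; ring
    rw [h1]
    refine K'.div_mem (K'.sub_mem hb.mem (intCast_mem K' b)) (K'.mul_mem ?_ (intCast_mem K' a))
    exact ofNat_mem K' 2
  refine ⟨hmem, ⟨a.toNat, ?_, ?_, ?_⟩, fun σ => ?_⟩
  · exact Int.pos_iff_toNat_pos.1 ha
  · have h1 : ((a.toNat : ℕ) : ℝ) = (a : ℝ) := by
      exact_mod_cast Int.toNat_of_nonneg ha.le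
    rw [h1]
    exact hB
  · have h1 : ((a.toNat : ℕ) : ℂ) = (a : ℂ) := by
      exact_mod_cast congrArg (Int.cast : ℤ → ℂ) (Int.toNat_of_nonneg ha.le)
    rw [h1]
    refine ⟨Polynomial.X ^ 2 + Polynomial.C b * Polynomial.X + Polynomial.C (a * c), ?_, ?_⟩
    · have : Polynomial.X ^ 2 + Polynomial.C b * Polynomial.X + Polynomial.C (a * c) =
          Polynomial.X ^ 2 + (Polynomial.C b * Polynomial.X + Polynomial.C (a * c)) := by ring
      rw [this]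
      refine Polynomial.monic_X_pow_add ?_
      refine lt_of_le_of_lt (Polynomial.degree_linear_le) ?_
      norm_num
    · simp only [Polynomial.eval₂_add, Polynomial.eval₂_mul, Polynomial.eval₂_pow,
        Polynomial.eval₂_X, Polynomial.eval₂_C]
      simp only [eq_intCast]
      push_cast
      linear_combination (a : ℂ) * h
  · have h1 : (a : ℂ) * (σ ⟨τ, hmem⟩) ^ 2 + b * σ ⟨τ, hmem⟩ + c = 0 := by
      have h2 : (a : K') * (⟨τ, hmem⟩ : K') ^ 2 + b * ⟨τ, hmem⟩ + c = 0 := by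
        apply Subtype.ext
        push_cast
        exact h
      have h3 := congrArg σ h2
      simpa only [map_add, map_mul, map_pow, map_intCast, map_zero] using h3
    rw [End_root ha hτ h h1]
    exact hB'

private theorem End_dvd {a b c : ℤ} {τ w : ℂ} (hw : w ≠ 0) (hτ : τ.im ≠ 0) (h : QEq a b c τ)
    {n : ℕ} (hn : Mp (n * τ) (Lt w τ) (Lt w τ)) : a ∣ n := by
  obtain ⟨m, m', hm⟩ := hn (w * τ) ⟨0, 1, by push_cast; ring⟩
  have h1 : (n : ℂ) * τ ^ 2 = m + m' * τ := by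
    apply mul_left_cancel₀ hw
    linear_combination hm
  have h2 : ((a * m' + n * b : ℤ) : ℂ) * τ + ((a * m + n * c : ℤ) : ℂ) = 0 := by
    push_cast
    linear_combination (-(a : ℂ)) * h1 + (n : ℂ) * h.eq
  have h3 : a * m' + n * b = 0 := by
    have h4 := congrArg Complex.im h2
    rw [Complex.add_im, Complex.mul_im, Complex.intCast_re, Complex.intCast_im,
      Complex.intCast_im, zero_mul, add_zero, add_zero] at h4
    have h5 := (mul_eq_zero.1 h4).resolve_right hτ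
    exact_mod_cast h5
  have h4 : a * m + n * c = 0 := by
    rw [h3] at h2
    have : ((a * m + n * c : ℤ) : ℂ) = 0 := by simpa using h2
    exact_mod_cast this
  have d1 : a ∣ n * a := Dvd.intro_left _ rfl
  have d2 : a ∣ n * b := ⟨-m', by linear_combination h3⟩
  have d3 : a ∣ n * c := ⟨-m, by linear_combination h4⟩
  have hg : Int.gcd (Int.gcd a b) c = 1 := by
    apply h.prim
    · exact (Int.gcd_dvd_left _ _).trans (Int.gcd_dvd_left _ _)
    · exact (Int.gcd_dvd_left _ _).trans (Int.gcd_dvd_right _ _)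
    · exact Int.gcd_dvd_right _ _
  have d4 : a ∣ n * (Int.gcd a b : ℤ) := by
    have := Int.dvd_coe_gcd d1 d2
    rw [Int.gcd_mul_left] at this
    simpa using this
  have d5 : a ∣ n * (Int.gcd (Int.gcd a b) c : ℤ) := by
    have := Int.dvd_coe_gcd d4 d3
    rw [Int.gcd_mul_left] at this
    simpa using this
  rw [hg] at d5
  simpa using d5

/-- **Endomorphism estimate** for a reduced lattice with quadratic `τ` -/
theorem end_lat : ∃ C : ℕ, ∀ (K : IntermediateField ℚ ℂ) [FiniteDimensional ℚ K] (M : ℝ)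
    (w τ : ℂ) (a b c : ℤ), 2 ≤ M → (Module.finrank ℚ K : ℝ) ≤ M → w ≠ 0 → Red τ →
    Bd K M (G2 w (w * τ)) → Bd K M (G3 w (w * τ)) → QEq a b c τ →
    (a : ℝ) ≤ M ^ C ∧ |(b : ℝ)| ≤ M ^ C ∧ |(c : ℝ)| ≤ M ^ C := by
  obtain ⟨Ce, hE⟩ := engine1
  obtain ⟨Cv, hCv, hvol⟩ := covol_bd
  set P : ℝ := 22 * Cv + 1 with hP
  have hP1 : 1 ≤ P := by rw [hP]; linarith
  set c1 : ℝ := 2 * P + 3 with hc1
  have hc1p : 0 < c1 := by positivity
  obtain ⟨C, hC⟩ := isog_solve ((8 * P ^ 2 * c1) ^ Ce) (6 * Ce) Ce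
  obtain ⟨k, hk⟩ := pow_unbounded_of_one_lt (4 * P ^ 2) (by norm_num : (1 : ℝ) < 2)
  refine ⟨C + k + 4, ?_⟩
  intro K _ M w τ a b c hM hK hw hτ c2 c3 hq
  have hM1 : (1 : ℝ) ≤ M := by linarith
  have hM0 : (0 : ℝ) < M := by linarith
  have haR : (1 : ℝ) ≤ a := by exact_mod_cast hq.pos
  have ha0 : (0 : ℝ) < a := by linarith
  set L : ℝ := Real.log a with hL
  have hL0 : 0 ≤ L := Real.log_nonneg haR
  have hexpL : Real.exp L = a := Real.exp_log ha0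
  -- the imaginary part of τ
  have hY : τ.im ≤ P * M ^ 2 := by
    have bd := MulMain.bd_disc hM1 c2 c3
    have hne := disc_ne_zero (MulMain.ind_w hw hτ)
    have l1 := bd.lower hK (by positivity) hne (algebraMap K ℂ)
    have l2 : Real.exp (-(2 * M * (10 * M))) ≤
        ‖G2 w (w * τ) ^ 3 - 27 * G3 w (w * τ) ^ 2‖ := l1
    have u2 : ‖G2 w (w * τ)‖ ≤ Real.exp M := c2.house (algebraMap K ℂ)
    have u3 : ‖G3 w (w * τ)‖ ≤ Real.exp M := c3.house (algebraMap K ℂ)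
    obtain ⟨k1, -, -⟩ := hvol w τ M (2 * M * (10 * M)) hw hτ (by positivity) (by positivity)
      u2 u3 l2
    refine k1.trans ?_
    rw [hP]
    have : M ≤ M ^ 2 := by nlinarith
    have h1 : (1 : ℝ) ≤ M ^ 2 := by nlinarith
    nlinarith
  have hPM : 1 ≤ P * M ^ 2 := by
    have h1 : (1 : ℝ) ≤ M ^ 2 := by nlinarith
    exact one_le_mul_of_one_le_of_one_le hP1 h1
  have him := hτ.im_half
  have hnτ : ‖τ‖ ≤ 2 * (P * M ^ 2) := by
    have := hτ.norm_le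
    linarith
  -- parameters
  set Q : ℝ := 2 * (P * M ^ 2 + 1) ^ 2 with hQ
  have hQ2 : 2 * (P * M ^ 2 + 1) ≤ Q := by rw [hQ]; nlinarith
  have hQ4 : 4 ≤ Q := by linarith
  have hQ0 : 0 < Q := by linarith
  have hQle : Q ≤ 8 * P ^ 2 * M ^ 4 := by
    rw [hQ]
    calc 2 * (P * M ^ 2 + 1) ^ 2 ≤ 2 * (P * M ^ 2 + P * M ^ 2) ^ 2 := by gcongr
      _ = 8 * P ^ 2 * M ^ 4 := by ring
  set T : ℝ := 1 / Q with hT
  have hT0 : 0 < T := by positivity
  set H : ℝ := c1 * M ^ 2 * (1 + L) with hH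
  have hM2 : (1 : ℝ) ≤ M ^ 2 := one_le_pow₀ hM1
  have hMM2 : M ≤ M ^ 2 := by nlinarith
  have hHsum : M + L + 2 * (P * M ^ 2) ≤ H := by
    have e1 : M ^ 2 ≤ M ^ 2 * (1 + L) := le_mul_of_one_le_right (by positivity) (by linarith)
    have e2 : L ≤ M ^ 2 * (1 + L) := by nlinarith
    have e3 : 2 * (P * M ^ 2) ≤ 2 * P * (M ^ 2 * (1 + L)) := by
      have : 2 * (P * M ^ 2) = 2 * P * M ^ 2 := by ring
      rw [this]; gcongr
    have e4 : 0 ≤ M ^ 2 * (1 + L) := by positivity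
    rw [hH, hc1]
    nlinarith
  have hHM : M ≤ H := by
    have : 0 ≤ P * M ^ 2 := by positivity
    linarith
  have hH0 : 0 < H := by linarith
  set M' : ℝ := Q * H with hM'
  have hMT : M' * T = H := by rw [hM', hT]; field_simp
  have hQM' : Q ≤ M' := by rw [hM']; exact le_mul_of_one_le_right hQ0.le (by linarith)
  have hM'2 : 2 ≤ M' := by linarith
  -- the field
  obtain ⟨K', hKK', hfd, hfr, hbτ⟩ := End_field K (B := H) hq.pos hτ.im_pos.ne' hq.eq (by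
      rw [← hexpL]
      exact Real.exp_le_exp.2 (by
        have : 0 ≤ P * M ^ 2 := by positivity
        linarith)) (by
      refine hnτ.trans ?_
      refine le_trans ?_ (Real.exp_le_exp.2 (by linarith : 2 * (P * M ^ 2) ≤ H))
      exact isog_exp le_rfl)
  have hmono : ∀ x : ℂ, Bd K M x → Bd K' (M' * T) x := fun x hx => by
    rw [hMT]; exact (hx.sk_ext hKK').sk_mono hHM
  have hτ0 := hτ.ne_zero
  have hTle : T ≤ 1 / 4 := by
    rw [hT]; exact one_div_le_one_div_of_le (by norm_num) hQ4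
  have cur1 : Cur K' M' (M' * T) T w τ :=
    ⟨hw, hτ.im_pos, by linarith, fun v hv hv0 => (hτ.short v hv hv0).trans
      (le_mul_of_one_le_left (norm_nonneg _) (by linarith)), hmono _ c2, hmono _ c3⟩
  have himS : T ≤ (-1 / τ).im := by
    have h1 := im_S hτ hY
    rw [hT, hQ]; exact h1
  have cur2 : Cur K' M' (M' * T) T (w * τ) (-1 / τ) := by
    refine ⟨mul_ne_zero hw hτ0, lt_of_lt_of_le hT0 himS, himS, ?_, ?_, ?_⟩
    · intro v hv hv0
      rw [Lt_S hτ0] at hv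
      rw [norm_mul, mul_comm]
      have h1 : ‖τ‖ ≤ M' := by linarith
      have h2 := hτ.short v hv hv0
      gcongr
    · rw [G2_S hτ0]; exact hmono _ c2
    · rw [G3_S hτ0]; exact hmono _ c3
  have hfr' : (Module.finrank ℚ K' : ℝ) ≤ M' := by
    have h1 : (Module.finrank ℚ K' : ℝ) ≤ 2 * Module.finrank ℚ K := by exact_mod_cast hfr
    have h2 : 4 * M ≤ M' := by rw [hM']; gcongr
    linarith
  obtain ⟨n, hn0, hn, hnm⟩ := hE K' M' T w τ (w * τ) (-1 / τ) τ hM'2 hfr' hT0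
    (by rw [hMT]; linarith) cur1 cur2 (by rw [hMT]; exact hbτ) (by ring)
  rw [Lt_S hτ0] at hnm
  have hdvd := End_dvd hw hτ.im_pos.ne' hq hnm
  have han : (a : ℝ) ≤ n := by
    have h1 : a ≤ n := Int.le_of_dvd (by exact_mod_cast hn0) hdvd
    exact_mod_cast h1
  have haC : (a : ℝ) ≤ M ^ C := by
    apply hC M a hM haR
    refine (han.trans hn).trans ?_
    have h1 : M' ≤ (8 * P ^ 2 * c1) * M ^ 6 * (1 + L) := by
      calc M' = Q * H := rfl
        _ ≤ (8 * P ^ 2 * M ^ 4) * (c1 * M ^ 2 * (1 + L)) := by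
            rw [← hH]; gcongr
        _ = (8 * P ^ 2 * c1) * M ^ 6 * (1 + L) := by ring
    calc M' ^ Ce ≤ ((8 * P ^ 2 * c1) * M ^ 6 * (1 + L)) ^ Ce := by gcongr
      _ = (8 * P ^ 2 * c1) ^ Ce * M ^ (6 * Ce) * (1 + L) ^ Ce := by
          rw [mul_pow, mul_pow, ← pow_mul]
  obtain ⟨hb, hc⟩ := End_parts hτ.im_pos.ne' hq.eq
  have hfin : (a : ℝ) * (4 * P ^ 2 * M ^ 4) ≤ M ^ (C + k + 4) := by
    calc (a : ℝ) * (4 * P ^ 2 * M ^ 4) ≤ M ^ C * (2 ^ k * M ^ 4) := by gcongr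
      _ ≤ M ^ C * (M ^ k * M ^ 4) := by gcongr
      _ = M ^ (C + k + 4) := by rw [pow_add, pow_add]; ring
  have h4P : 1 ≤ 4 * P ^ 2 * M ^ 4 := by
    have h1 : (1 : ℝ) ≤ P ^ 2 := one_le_pow₀ hP1
    have h2 : (1 : ℝ) ≤ M ^ 4 := one_le_pow₀ hM1
    nlinarith [one_le_mul_of_one_le_of_one_le h1 h2]
  have haf : (a : ℝ) ≤ M ^ (C + k + 4) :=
    (le_mul_of_one_le_right ha0.le h4P).trans hfin
  refine ⟨haf, ?_, ?_⟩
  · rw [hb]
    have h1 : |(-2 : ℝ) * a * τ.re| = 2 * a * |τ.re| := by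
      rw [abs_mul, abs_mul, abs_of_pos ha0]
      norm_num
    rw [h1]
    have h2 := hτ.re_le
    nlinarith
  · rw [hc, abs_of_nonneg (by positivity)]
    refine le_trans ?_ hfin
    refine mul_le_mul_of_nonneg_left ?_ ha0.le
    calc ‖τ‖ ^ 2 ≤ (2 * (P * M ^ 2)) ^ 2 := pow_le_pow_left₀ (norm_nonneg _) hnτ 2
      _ = 4 * P ^ 2 * M ^ 4 := by ring

/-- the primitive equation of a quadratic point -/
theorem exists_qeq {τ : ℍ} (h : IsCM τ) : ∃ a b c : ℤ, QEq a b c (τ : ℂ) := by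
  obtain ⟨a, b, c, ha, habc⟩ := h
  obtain ⟨g, ga, gb, gc, hgd⟩ : ∃ g : ℕ, (g : ℤ) ∣ a ∧ (g : ℤ) ∣ b ∧ (g : ℤ) ∣ c ∧
      ∀ e : ℤ, e ∣ a → e ∣ b → e ∣ c → e ∣ (g : ℤ) :=
    ⟨Int.gcd (Int.gcd a b) c, (Int.gcd_dvd_left _ _).trans (Int.gcd_dvd_left _ _),
      (Int.gcd_dvd_left _ _).trans (Int.gcd_dvd_right _ _), Int.gcd_dvd_right _ _,
      fun e h1 h2 h3 => Int.dvd_coe_gcd (Int.dvd_coe_gcd h1 h2) h3⟩
  have hg0 : g ≠ 0 := by
    intro h0
    rw [h0] at ga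
    exact ha (by simpa using ga)
  obtain ⟨a', rfl⟩ := ga
  obtain ⟨b', rfl⟩ := gb
  obtain ⟨c', rfl⟩ := gc
  have hgC : (g : ℂ) ≠ 0 := by exact_mod_cast hg0
  have ha' : a' ≠ 0 := by
    rintro rfl
    exact ha (mul_zero _)
  have heq : (a' : ℂ) * (τ : ℂ) ^ 2 + b' * (τ : ℂ) + c' = 0 := by
    apply mul_left_cancel₀ hgC
    push_cast at habc
    linear_combination habc
  have hprim : ∀ d : ℕ, (d : ℤ) ∣ a' → (d : ℤ) ∣ b' → (d : ℤ) ∣ c' → d = 1 := by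
    intro d h1 h2 h3
    have h4 : ((g * d : ℕ) : ℤ) ∣ (g : ℤ) := by
      push_cast
      refine hgd _ ?_ ?_ ?_
      · exact mul_dvd_mul_left _ h1
      · exact mul_dvd_mul_left _ h2
      · exact mul_dvd_mul_left _ h3
    have h5 : g * d ∣ g := by exact_mod_cast h4
    have h6 := Nat.le_of_dvd (Nat.pos_of_ne_zero hg0) h5
    have h7 : d ≠ 0 := by
      rintro rfl
      rw [mul_zero] at h5
      exact hg0 (Nat.eq_zero_of_zero_dvd h5)
    have h8 : 0 < g := Nat.pos_of_ne_zero hg0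
    nlinarith [Nat.pos_of_ne_zero h7]
  rcases lt_or_gt_of_ne ha' with hneg | hpos
  · refine ⟨-a', -b', -c', by omega, ?_, ?_⟩
    · intro d h1 h2 h3
      exact hprim d ((dvd_neg).1 h1) ((dvd_neg).1 h2) ((dvd_neg).1 h3)
    · push_cast
      linear_combination -heq
  · exact ⟨a', b', c', hpos, hprim, heq⟩

/-- **Endomorphism estimate** in terms of the invariant -/
theorem end_use : ∃ C : ℕ, ∀ (K : IntermediateField ℚ ℂ) [FiniteDimensional ℚ K] (M : ℝ) (x : ℂ),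
    2 ≤ M → (Module.finrank ℚ K : ℝ) ≤ M → Bd K M x → x ≠ 0 → x ≠ 1728 → ¬ NCM x →
    ∃ (τ : ℍ) (a b c : ℤ), Red (τ : ℂ) ∧ jInv τ = x ∧ QEq a b c (τ : ℂ) ∧
      (a : ℝ) ≤ M ^ C ∧ |(b : ℝ)| ≤ M ^ C ∧ |(c : ℝ)| ≤ M ^ C := by
  obtain ⟨C1, hC1, hmodel⟩ := exists_model
  obtain ⟨C2, hend⟩ := end_lat
  obtain ⟨k, hk⟩ := pow_unbounded_of_one_lt C1 (by norm_num : (1 : ℝ) < 2)
  refine ⟨(k + 1) * C2, ?_⟩
  intro K _ M x hM hK bx hx0 hx1 hcm
  obtain ⟨w, τ, hw, hr, hj, b2, b3⟩ := hmodel K M x (by linarith) bx hx0 hx1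
  have hcm' : IsCM τ := by
    rw [ncm_iff, not_not, ← hj, isCMVal_jInv] at hcm
    exact hcm
  obtain ⟨a, b, c, hq⟩ := exists_qeq hcm'
  have hpow : C1 * M ≤ M ^ (k + 1) := by
    rw [pow_succ]
    apply mul_le_mul_of_nonneg_right _ (by linarith)
    exact hk.le.trans (pow_le_pow_left₀ (by norm_num) hM k)
  have hMM : M ≤ M ^ (k + 1) := by
    have : 1 * M ≤ C1 * M := mul_le_mul_of_nonneg_right hC1 (by linarith)
    linarith
  have h1 := hend K (M ^ (k + 1)) w τ a b c (by linarith) (by linarith) hw hr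
    (b2.mono hpow) (b3.mono hpow) hq
  rw [← pow_mul] at h1
  exact ⟨τ, a, b, c, hr, hj, hq, h1.1, h1.2.1, h1.2.2⟩

end Pool.Agent.LGO
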