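import Mathlib
import Pool.Agent.LGO.H.BdC
import Pool.Agent.LGO.Mul.Ht
import Pool.Agent.LGO.U.RFld
import Pool.Agent.LGO.U.RInt

/-!
# LGO/CM: heights of inverses and of values of rational functions

* `Bd.inv`: `n x` integral, `z = N(n x) = ∏ τ(n x)` is a nonzero integer, `z x⁻¹ = n ∏_{τ ≠ id} τ(n x)`.
* `bd_val`: values of a polynomial with algebraic coefficients.
* `bd_ratio`: values of a rational function.
-/

namespace Pool.Agent.LGO

open Polynomial Pool.Agent.Hhelper14.ZPL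

theorem Bd.inv {K : IntermediateField ℚ ℂ} [FiniteDimensional ℚ K] {D h : ℝ} {x : ℂ}
    (hD : (Module.finrank ℚ K : ℝ) ≤ D) (hh : 0 ≤ h) (hx : Bd K h x) (h0 : x ≠ 0) :
    Bd K (2 * D * h) x⁻¹ := by
  classical
  obtain ⟨n, hn, hnh, hint⟩ := hx.den
  set y : K := ⟨x, hx.mem⟩ with hy
  have hyn : y ≠ 0 := by
    intro e
    apply h0
    have := congrArg (fun z : K => (z : ℂ)) e
    simpa [hy] using this
  set w : K := (n : K) * y with hw
  have hn0 : (n : K) ≠ 0 := Nat.cast_ne_zero.2 hn.ne'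
  have hwn : w ≠ 0 := mul_ne_zero hn0 hyn
  have hwint : IsIntegral ℤ w := by
    have h1 : IsIntegral ℤ ((algebraMap K ℂ) w) := by
      have e : (algebraMap K ℂ) w = (n : ℂ) * x := by
        rw [hw, map_mul, map_natCast]
        rfl
      rw [e]
      exact hint
    exact (isIntegral_algebraMap_iff (algebraMap K ℂ).injective).1 h1
  have hN : IsIntegral ℤ (Algebra.norm ℚ w) := Algebra.isIntegral_norm ℚ hwint
  obtain ⟨z, hz⟩ := IsIntegrallyClosed.isIntegral_iff.1 hN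
  have hz0 : z ≠ 0 := by
    intro e
    rw [e, map_zero] at hz
    exact hwn (Algebra.norm_eq_zero_iff.1 hz.symm)
  have hprod := Algebra.norm_eq_prod_embeddings ℚ ℂ w
  have hzp : (z : ℂ) = ∏ τ : K →ₐ[ℚ] ℂ, τ w := by
    rw [← hprod, ← hz]
    simp
  have hup : ∀ τ : K →ₐ[ℚ] ℂ, ‖τ w‖ ≤ Real.exp (2 * h) := by
    intro τ
    have e : τ w = (n : ℂ) * τ y := by rw [hw, map_mul, map_natCast]
    rw [e, norm_mul, Complex.norm_natCast]
    have h2 := hx.house (τ : K →+* ℂ)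
    calc (n : ℝ) * ‖τ y‖ ≤ Real.exp h * Real.exp h :=
          mul_le_mul hnh h2 (norm_nonneg _) (Real.exp_pos _).le
      _ = Real.exp (2 * h) := by rw [← Real.exp_add]; ring_nf
  have hcard : Fintype.card (K →ₐ[ℚ] ℂ) = Module.finrank ℚ K := AlgHom.card ℚ K ℂ
  refine ⟨K.inv_mem hx.mem, ⟨z.natAbs, Int.natAbs_pos.2 hz0, ?_, ?_⟩, fun σ => ?_⟩
  · have h1 : ((z.natAbs : ℕ) : ℝ) = ‖(z : ℂ)‖ := by
      rw [Complex.norm_intCast, Nat.cast_natAbs, Int.cast_abs]
    rw [h1, hzp, norm_prod]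
    calc ∏ τ : K →ₐ[ℚ] ℂ, ‖τ w‖ ≤ ∏ _τ : K →ₐ[ℚ] ℂ, Real.exp (2 * h) :=
          Finset.prod_le_prod (fun _ _ => norm_nonneg _) fun τ _ => hup τ
      _ = Real.exp (2 * h) ^ Module.finrank ℚ K := by
          rw [Finset.prod_const, Finset.card_univ, hcard]
      _ = Real.exp (Module.finrank ℚ K * (2 * h)) := by rw [← Real.exp_nat_mul]
      _ ≤ Real.exp (2 * D * h) := by
          apply Real.exp_le_exp.2
          nlinarith
  · have h1 : IsIntegral ℤ ((z : ℂ) * x⁻¹) := by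
      have e1 : ∏ τ : K →ₐ[ℚ] ℂ, τ w = (K.val w) * ∏ τ ∈ Finset.univ.erase K.val, τ w :=
        (Finset.mul_prod_erase _ _ (Finset.mem_univ _)).symm
      have e2 : K.val w = (n : ℂ) * x := by
        rw [hw, map_mul, map_natCast]
        rfl
      have e3 : (z : ℂ) * x⁻¹ = (n : ℂ) * ∏ τ ∈ Finset.univ.erase K.val, τ w := by
        rw [hzp, e1, e2]
        field_simp
      rw [e3]
      refine isIntegral_natCast_mul n ?_
      refine IsIntegral.prod _ fun τ _ => ?_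
      exact map_isIntegral_int (τ : K →+* ℂ) hwint
    rcases Int.natAbs_eq z with h2 | h2
    · have h3 : ((z.natAbs : ℕ) : ℂ) = (z : ℂ) := by
        conv_rhs => rw [h2]
        simp
      rw [h3]
      exact h1
    · have h3 : ((z.natAbs : ℕ) : ℂ) = -(z : ℂ) := by
        conv_rhs => rw [h2]
        simp
      rw [h3, neg_mul]
      exact h1.neg
  · have h1 := hx.lower hD hh h0 σ
    have h2 : σ ⟨x⁻¹, K.inv_mem hx.mem⟩ = (σ ⟨x, hx.mem⟩)⁻¹ := by
      rw [← map_inv₀]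
      rfl
    rw [h2, norm_inv]
    refine inv_le_of_inv_le₀ (Real.exp_pos _) ?_
    rw [← Real.exp_neg]
    exact h1

private theorem Inv_const (c : Qb) : ∃ C : ℝ, 0 ≤ C ∧ ∀ K : IntermediateField ℚ ℂ, (c : ℂ) ∈ K →
    Bd K C (c : ℂ) := by
  have hint : IsIntegral ℚ (c : ℂ) := ((mem_algebraicClosure_iff).1 c.2).isIntegral
  obtain ⟨m, hm, h1⟩ := U.RInt_den (C c)
  have h2 : IsIntegral ℤ ((m : ℂ) * (c : ℂ)) := by
    have := h1 0
    rwa [coeff_C_zero] at this
  have hne : minpoly ℚ (c : ℂ) ≠ 0 := minpoly.ne_zero hint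
  have hfin : ((minpoly ℚ (c : ℂ)).rootSet ℂ).Finite := Polynomial.rootSet_finite _ _
  obtain ⟨B, hB⟩ := (hfin.image norm).bddAbove
  have hm1 : (1 : ℝ) ≤ m := by exact_mod_cast hm
  refine ⟨Real.log m + Real.log (1 + |B|), add_nonneg (Real.log_nonneg hm1)
    (Real.log_nonneg (by have := abs_nonneg B; linarith)), ?_⟩
  intro K hK
  have hB1 : 1 ≤ 1 + |B| := by have := abs_nonneg B; linarith
  refine ⟨hK, ⟨m, hm, ?_, h2⟩, fun σ => ?_⟩
  · rw [Real.exp_add, Real.exp_log (by linarith), Real.exp_log (by linarith)]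
    exact le_mul_of_one_le_right (by linarith) hB1
  · rw [Real.exp_add, Real.exp_log (by linarith), Real.exp_log (by linarith)]
    have h3 : ‖σ ⟨(c : ℂ), hK⟩‖ ≤ B := by
      refine hB ⟨_, ?_, rfl⟩
      rw [Polynomial.mem_rootSet]
      refine ⟨hne, ?_⟩
      have h4 : Polynomial.aeval ((RingHom.toRatAlgHom σ) ⟨(c : ℂ), hK⟩) (minpoly ℚ (c : ℂ)) =
          (RingHom.toRatAlgHom σ) (Polynomial.aeval (⟨(c : ℂ), hK⟩ : K) (minpoly ℚ (c : ℂ))) :=
        Polynomial.aeval_algHom_apply _ _ _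
      have h5 : Polynomial.aeval (⟨(c : ℂ), hK⟩ : K) (minpoly ℚ (c : ℂ)) = 0 := by
        apply (algebraMap K ℂ).injective
        rw [← Polynomial.aeval_algebraMap_apply, map_zero]
        exact minpoly.aeval ℚ (c : ℂ)
      rw [h5, map_zero] at h4
      exact h4
    have h6 := le_abs_self B
    have h7 := abs_nonneg B
    nlinarith

/-- values of a polynomial with algebraic coefficients -/
theorem bd_val (P : Polynomial Qb) : ∃ C : ℝ, 1 ≤ C ∧ ∀ (K : IntermediateField ℚ ℂ) (B : ℝ) (t : ℂ),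
    0 ≤ B → (∀ i, ((P.coeff i : Qb) : ℂ) ∈ K) → Bd K B t → Bd K (C * (1 + B)) (aeval t P) := by
  classical
  choose c hc hcK using Inv_const
  set D : ℝ := (∑ i ∈ Finset.range (P.natDegree + 1), (c (P.coeff i) + i + 1)) + 1 with hD
  have hS : 0 ≤ ∑ i ∈ Finset.range (P.natDegree + 1), (c (P.coeff i) + i + 1) :=
    Finset.sum_nonneg fun i _ => by have := hc (P.coeff i); positivity
  refine ⟨D, by rw [hD]; linarith, ?_⟩
  intro K B t hB hK ht
  have key : ∀ s : Finset ℕ, Bd K ((∑ i ∈ s, (c (P.coeff i) + i + 1)) * (1 + B))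
      (∑ i ∈ s, ((P.coeff i : Qb) : ℂ) * t ^ i) := by
    intro s
    induction s using Finset.induction_on with
    | empty =>
      rw [Finset.sum_empty, Finset.sum_empty, zero_mul]
      have := Bd.intCast (K := K) (B := 0) 0 (by simp) le_rfl
      simpa using this
    | insert a s ha ih =>
      rw [Finset.sum_insert ha, Finset.sum_insert ha]
      have h1 : Bd K (c (P.coeff a) + a * B) (((P.coeff a : Qb) : ℂ) * t ^ a) :=
        (hcK _ K (hK a)).mul (ht.pow a)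
      refine (h1.add ih).mono ?_
      have h2 := hc (P.coeff a)
      have h3 : (0 : ℝ) ≤ a := Nat.cast_nonneg a
      nlinarith [mul_nonneg h2 hB, mul_nonneg h3 hB]
  have h1 := key (Finset.range (P.natDegree + 1))
  have h2 : (aeval t P : ℂ) = ∑ i ∈ Finset.range (P.natDegree + 1), ((P.coeff i : Qb) : ℂ) * t ^ i := by
    rw [aeval_eq_sum_range]
    refine Finset.sum_congr rfl fun i _ => ?_
    rw [Algebra.smul_def]
    rfl
  rw [h2]
  refine h1.mono ?_
  rw [hD]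
  nlinarith

/-- values of a rational function with algebraic coefficients -/
theorem bd_ratio (P Q : Polynomial Qb) : ∃ C : ℝ, 1 ≤ C ∧ ∀ (K : IntermediateField ℚ ℂ)
    [FiniteDimensional ℚ K] (B : ℝ) (t x : ℂ), 0 ≤ B → Bd K B t → x ∈ K →
      (aeval t Q : ℂ) ≠ 0 → (aeval t P : ℂ) = x * aeval t Q →
      Bd K (C * Module.finrank ℚ K * (1 + B)) x := by
  classical
  obtain ⟨C₁, hC₁, h₁⟩ := bd_val P
  obtain ⟨C₂, hC₂, h₂⟩ := bd_val Q
  obtain ⟨K₀, hK₀, hfix⟩ := U.fld_fix {P, Q}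
  set d₀ : ℕ := Module.finrank ℚ K₀ with hd₀
  have hd₀1 : 1 ≤ d₀ := Module.finrank_pos
  have hd₀R : (1 : ℝ) ≤ d₀ := by exact_mod_cast hd₀1
  refine ⟨C₁ + 2 * d₀ * C₂, by nlinarith, ?_⟩
  intro K _ B t x hB ht hx hQ hxt
  set K' : IntermediateField ℚ ℂ := K ⊔ K₀ with hK'
  have hfd : FiniteDimensional ℚ K' := IntermediateField.finiteDimensional_sup K K₀
  have hKK' : K ≤ K' := le_sup_left
  have hP' : ∀ i, ((P.coeff i : Qb) : ℂ) ∈ K' := fun i =>
    (le_sup_right : K₀ ≤ K') (hfix P (by simp) i)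
  have hQ' : ∀ i, ((Q.coeff i : Qb) : ℂ) ∈ K' := fun i =>
    (le_sup_right : K₀ ≤ K') (hfix Q (by simp) i)
  have hfr : (Module.finrank ℚ K' : ℝ) ≤ d₀ * Module.finrank ℚ K := by
    have h1 := IntermediateField.finrank_sup_le K K₀
    have h2 : Module.finrank ℚ K' ≤ d₀ * Module.finrank ℚ K := by
      rw [mul_comm]; exact h1
    exact_mod_cast h2
  have hD1 : (1 : ℝ) ≤ Module.finrank ℚ K := by exact_mod_cast (Module.finrank_pos : 0 < Module.finrank ℚ K)
  have b1 := h₁ K' B t hB hP' (ht.le hKK')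
  have b2 := h₂ K' B t hB hQ' (ht.le hKK')
  have b3 := b2.inv hfr (by positivity) hQ
  have hxe : x = aeval t P * (aeval t Q)⁻¹ := by
    rw [hxt, mul_assoc, mul_inv_cancel₀ hQ, mul_one]
  have b4 := b1.mul b3
  rw [← hxe] at b4
  have b5 : Bd K' ((C₁ + 2 * d₀ * C₂) * Module.finrank ℚ K * (1 + B)) x := by
    refine b4.mono ?_
    have e1 : C₁ * (1 + B) ≤ C₁ * Module.finrank ℚ K * (1 + B) := by
      have : C₁ ≤ C₁ * Module.finrank ℚ K := le_mul_of_one_le_right (by linarith) hD1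
      exact mul_le_mul_of_nonneg_right this (by linarith)
    nlinarith
  refine ⟨hx, b5.den, fun σ => ?_⟩
  obtain ⟨s, hs⟩ := exists_aut K σ
  have h6 := b5.aut s
  rw [← hs ⟨x, hx⟩]
  exact h6

end Pool.Agent.LGO
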