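import Mathlib
import Pool.Agent.LGO.CM.End
import Pool.Agent.LGO.CM.Inv
import Pool.Agent.LGO.Gal.Inv

/-!
# LGO/CM: the endomorphism estimate at all conjugates

`cm_conj`: if `x ≠ 0, 1728` is a CM invariant of degree and height at most `M`, then at every
automorphism `s` of `ℂ` the reduced `τ` with `j(τ) = s x` has a primitive quadratic equation with
coefficients at most `M ^ C`.  `cm_conj_ratio`: the same for the value `x = A(t) / B(t)` of a rational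
function, in terms of the height of `t`.
-/

namespace Pool.Agent.LGO

open Polynomial UpperHalfPlane Pool.Agent.Hhelper14.ZP Pool.Agent.Hhelper14.ZPL

theorem cm_conj : ∃ C : ℕ, ∀ (K : IntermediateField ℚ ℂ) [FiniteDimensional ℚ K] (M : ℝ) (x : ℂ),
    2 ≤ M → (Module.finrank ℚ K : ℝ) ≤ M → Bd K M x → x ≠ 0 → x ≠ 1728 → ¬ NCM x →
    ∀ s : ℂ ≃+* ℂ, ∃ (τ : ℍ) (a b c : ℤ), Red (τ : ℂ) ∧ jInv τ = s x ∧ QEq a b c (τ : ℂ) ∧
      (a : ℝ) ≤ M ^ C ∧ |(b : ℝ)| ≤ M ^ C ∧ |(c : ℝ)| ≤ M ^ C := by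
  obtain ⟨C, hC⟩ := end_use
  refine ⟨C, ?_⟩
  intro K _ M x hM hK hx h0 h1 hcm s
  refine hC (KS s K) M (s x) hM (by rw [finrank_KS]; exact hK) (hx.map s) ?_ ?_ ?_
  · intro h
    exact h0 (by simpa using h)
  · intro h
    apply h1
    apply s.injective
    rw [h, map_ofNat]
  · rw [ncm_iff, not_not] at hcm ⊢
    exact (isCMVal_map_iff s).2 hcm

theorem cm_conj_ratio (A B : Polynomial Qb) : ∃ C : ℕ, ∀ (K : IntermediateField ℚ ℂ)
    [FiniteDimensional ℚ K] (M : ℝ) (t x : ℂ), 2 ≤ M → (Module.finrank ℚ K : ℝ) ≤ M → Bd K M t →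
    x ∈ K → (aeval t B : ℂ) ≠ 0 → (aeval t A : ℂ) = x * aeval t B → x ≠ 0 → x ≠ 1728 → ¬ NCM x →
    Bd K (M ^ C) x ∧
    ∀ s : ℂ ≃+* ℂ, ∃ (τ : ℍ) (a b c : ℤ), Red (τ : ℂ) ∧ jInv τ = s x ∧ QEq a b c (τ : ℂ) ∧
      (a : ℝ) ≤ M ^ C ∧ |(b : ℝ)| ≤ M ^ C ∧ |(c : ℝ)| ≤ M ^ C := by
  obtain ⟨C₁, hC₁, h₁⟩ := bd_ratio A B
  obtain ⟨C₂, h₂⟩ := cm_conj
  obtain ⟨k, hk⟩ := pow_unbounded_of_one_lt (2 * C₁) (by norm_num : (1 : ℝ) < 2)
  refine ⟨(k + 2) * (C₂ + 1), ?_⟩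
  intro K _ M t x hM hK ht hx hB hxt h0 h1 hcm
  have hM0 : (0 : ℝ) ≤ M := by linarith
  have hM1 : (1 : ℝ) ≤ M := by linarith
  have hD0 : (0 : ℝ) ≤ Module.finrank ℚ K := Nat.cast_nonneg _
  have b1 := h₁ K M t x hM0 ht hx hB hxt
  have hle : C₁ * Module.finrank ℚ K * (1 + M) ≤ M ^ (k + 2) := by
    calc C₁ * Module.finrank ℚ K * (1 + M) ≤ C₁ * M * (2 * M) := by
          refine mul_le_mul (mul_le_mul_of_nonneg_left hK (by linarith)) (by linarith)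
            (by linarith) (by positivity)
      _ = (2 * C₁) * M ^ 2 := by ring
      _ ≤ M ^ k * M ^ 2 := by
          refine mul_le_mul_of_nonneg_right ?_ (by positivity)
          exact hk.le.trans (pow_le_pow_left₀ (by norm_num) hM k)
      _ = M ^ (k + 2) := by rw [pow_add]
  have b2 := b1.mono hle
  have hMk : M ≤ M ^ (k + 2) := le_self_pow₀ hM1 (by omega)
  have h3 := h₂ K (M ^ (k + 2)) x (by linarith) (by linarith) b2 h0 h1 hcm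
  have hexp : (M ^ (k + 2)) ^ C₂ ≤ M ^ ((k + 2) * (C₂ + 1)) := by
    rw [← pow_mul]
    exact pow_le_pow_right₀ hM1 (Nat.mul_le_mul_left _ (Nat.le_succ _))
  refine ⟨b2.mono (pow_le_pow_right₀ hM1 (Nat.le_mul_of_pos_right _ (Nat.succ_pos _))), ?_⟩
  intro s
  obtain ⟨τ, a, b, c, hr, hj, hq, ha, hb, hc⟩ := h3 s
  exact ⟨τ, a, b, c, hr, hj, hq, ha.trans hexp, hb.trans hexp, hc.trans hexp⟩

end Pool.Agent.LGO
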